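import Pool.Agent.N273.LT.Sum3
import Pool.Agent.Y291.PH.Half

/-!
# Bounded doubling index on most of the small discs: all Liouville tori

The torus is `ℝ × ℝ` modulo the lattice generated by `(L, 0)` and `(0, 2π)`, with a Liouville metric
`(f(x) + g(y))(dx² + dy²)`, where `f` and `g` are any continuous functions (`L`- and `2π`-periodic)
with `f(x) + g(y) > 0`; nothing is assumed about smoothness or analyticity in any of the variables,
or about the multiplicities of the eigenvalues.

For every `δ > 0` the doubling index is at most `K(δ)` on all but the proportion `δ` of the discs of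
every covering as in the question. (The number of exceptional discs is `O(1/K)`: the average of the
doubling indices over the discs is bounded, `Pool.Agent.N273.LT.sum_bound`.)
-/

set_option autoImplicit false

namespace Pool.Agent.N273.Shelf.MostDiscsLiouville

open Pool.Agent.Y291.DB

/-- The discs of radius `A / √lam` with centers `c i` cover the torus, every point lies in at most `C₁`
of them, and `φ` vanishes at the centers. -/
structure Covering (ρ : ℝ × ℝ → ℝ) (L lam : ℝ) (φ : ℝ × ℝ → ℝ) (A C₁ : ℝ) {ι : Type} [Fintype ι]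
    (c : ι → ℝ × ℝ) : Prop where
  cover : ∀ q : ℝ × ℝ, ∃ i, q ∈ disc ρ L 0 (c i) (A / Real.sqrt lam)
  mult : ∀ q : ℝ × ℝ, ({i | q ∈ disc ρ L 0 (c i) (A / Real.sqrt lam)}.ncard : ℝ) ≤ C₁
  zero : ∀ i, φ (c i) = 0

/-- Let `f`, `g` be continuous, `L`-periodic and `2π`-periodic, with `f(x) + g(y) > 0`, and consider
the torus `ℝ²/(Lℤ × 2πℤ)` with the metric `(f(x) + g(y))(dx² + dy²)`. For all `A, C₁, δ > 0` there is
`K` such that for every eigenfunction and every covering as in the question at least `(1 - δ) #B` of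
the discs have a doubling index `≤ K`. -/
theorem result (f g : ℝ → ℝ) (L : ℝ) (hL : 0 < L) (hf : Continuous f) (hg : Continuous g)
    (hfL : ∀ x, f (x + L) = f x) (hgp : ∀ y, g (y + 2 * Real.pi) = g y)
    (hpos : ∀ x y, 0 < f x + g y) (A C₁ : ℝ) (hA : 0 < A) (hC₁ : 0 < C₁) (δ : ℝ) (hδ : 0 < δ) :
    ∃ K : ℝ, 0 < K ∧ ∀ (lam : ℝ) (φ : ℝ × ℝ → ℝ), Eigen (fun p => f p.1 + g p.2) L 0 lam φ →
      ∀ (ι : Type) [Fintype ι] (c : ι → ℝ × ℝ),
        Covering (fun p => f p.1 + g p.2) L lam φ A C₁ c →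
        (1 - δ) * Fintype.card ι ≤
          (({i | doubling (fun p => f p.1 + g p.2) L 0 φ (c i) (A / Real.sqrt lam) ≤ K}.ncard : ℕ) :
            ℝ) := by
  classical
  have hρc : Continuous fun p : ℝ × ℝ => f p.1 + g p.2 :=
    (hf.comp continuous_fst).add (hg.comp continuous_snd)
  have hρx : ∀ p : ℝ × ℝ, (fun p : ℝ × ℝ => f p.1 + g p.2) (p.1 + L, p.2 + 0) =
      (fun p : ℝ × ℝ => f p.1 + g p.2) p := fun p => by simp [hfL]
  have hρy : ∀ p : ℝ × ℝ, (fun p : ℝ × ℝ => f p.1 + g p.2) (p.1, p.2 + 2 * Real.pi) =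
      (fun p : ℝ × ℝ => f p.1 + g p.2) p := fun p => by simp [hgp]
  obtain ⟨ρm, hρm0, hρm⟩ := bounded_below_of_per hL hρc (fun p => hpos p.1 p.2) hρx hρy
  obtain ⟨a, ha, h⟩ := Pool.Agent.N273.LT.sum_bound hf hg hL hfL hgp hpos hA hC₁
  obtain ⟨b, hb, hcard⟩ := Pool.Agent.Y291.PH.card_lower (α := 0) hL hρc hρm0 hρm hA
  refine ⟨a * b / δ, by positivity, fun lam φ hφ ι _ c hc => ?_⟩
  have h1 := h lam φ hφ ι c hc.mult
  have h2 := hcard lam hφ.pos ι c hc.cover
  set v : ι → ℝ := fun i => doubling (fun p => f p.1 + g p.2) L 0 φ (c i) (A / Real.sqrt lam) with hv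
  set K : ℝ := a * b / δ with hK
  have hK0 : 0 < K := by positivity
  set U : Finset ι := Finset.univ.filter fun i => K < v i with hU
  have h3 : (U.card : ℝ) * K ≤ ∑ i, max (v i) 0 := by
    calc (U.card : ℝ) * K = ∑ _i ∈ U, K := by rw [Finset.sum_const, nsmul_eq_mul]
      _ ≤ ∑ i ∈ U, max (v i) 0 := Finset.sum_le_sum fun i hi =>
          (Finset.mem_filter.1 hi).2.le.trans (le_max_left _ _)
      _ ≤ ∑ i, max (v i) 0 :=
          Finset.sum_le_sum_of_subset_of_nonneg (Finset.subset_univ _) fun i _ _ => le_max_right _ _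
  have h4 : (U.card : ℝ) * K ≤ a * b * Fintype.card ι := by
    calc (U.card : ℝ) * K ≤ a * (1 + lam) := h3.trans h1
      _ ≤ a * (b * Fintype.card ι) := mul_le_mul_of_nonneg_left h2 ha.le
      _ = _ := by ring
  have h5 : (U.card : ℝ) ≤ δ * Fintype.card ι := by
    have e : a * b = K * δ := by
      rw [hK]
      field_simp
    rw [e] at h4
    have h6 : (U.card : ℝ) * K ≤ (δ * Fintype.card ι) * K := by linarith
    exact le_of_mul_le_mul_right h6 hK0
  have h6 : {i | v i ≤ K} = ((Finset.univ \ U : Finset ι) : Set ι) := by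
    ext i
    simp [hU]
  rw [h6, Set.ncard_coe_finset, Finset.card_sdiff_of_subset (Finset.subset_univ _),
    Finset.card_univ, Nat.cast_sub (Finset.card_le_univ _)]
  linarith

end Pool.Agent.N273.Shelf.MostDiscsLiouville
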